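import Pool.Agent.N929.EX.Stm

/-!
Project EX, task SEL (helper322): selection of sparse families of unit squares.
-/

set_option autoImplicit false

namespace Pool.Agent.N322.EX

open Finset
open Pool.Agent.N929.EX

/-- the block indices -/
abbrev BL (N : ℕ) : Type :=
  ↥((Icc (-(N : ℤ) - 10) ((N : ℤ) + 10)) ×ˢ (Icc (-(N : ℤ) - 10) ((N : ℤ) + 10)))

/-- the point with position `q` in the block `b`, for the shift `τ` -/
def pt (τ : Fin 8 × Fin 8) (b : ℤ × ℤ) (q : Fin 7 × Fin 7) : ℤ × ℤ :=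
  (8 * b.1 + (q.1.val : ℤ) - (τ.1.val : ℤ), 8 * b.2 + (q.2.val : ℤ) - (τ.2.val : ℤ))

theorem pt_inj {τ : Fin 8 × Fin 8} {b b' : ℤ × ℤ} {q q' : Fin 7 × Fin 7}
    (h : pt τ b q = pt τ b' q') : b = b' ∧ q = q' := by
  obtain ⟨b1, b2⟩ := b
  obtain ⟨b1', b2'⟩ := b'
  obtain ⟨q1, q2⟩ := q
  obtain ⟨q1', q2'⟩ := q'
  simp only [pt, Prod.mk.injEq] at h
  have h1 := q1.isLt
  have h2 := q2.isLt
  have h3 := q1'.isLt
  have h4 := q2'.isLt
  refine ⟨?_, ?_⟩
  · rw [Prod.mk.injEq]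
    omega
  · rw [Prod.mk.injEq, Fin.ext_iff, Fin.ext_iff]
    omega

theorem one_dim (N : ℕ) (x : ℤ) (q : Fin 7) (hx : |x| ≤ N) :
    ∃ (t : Fin 8) (b : ℤ), b ∈ Icc (-(N : ℤ) - 10) ((N : ℤ) + 10) ∧
      8 * b + (q.val : ℤ) - (t.val : ℤ) = x := by
  have hq := q.isLt
  rw [abs_le] at hx
  refine ⟨⟨(8 * ((x - q.val + 7) / 8) - (x - q.val)).toNat, ?_⟩, (x - q.val + 7) / 8, ?_, ?_⟩
  · omega
  · rw [mem_Icc]
    omega
  · simp only
    omega

theorem pt_surj (N : ℕ) (p : ℤ × ℤ) (hp : |p.1| ≤ N ∧ |p.2| ≤ N) (q : Fin 7 × Fin 7) :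
    ∃ (τ : Fin 8 × Fin 8) (b : BL N), pt τ b q = p := by
  obtain ⟨t1, b1, h1, e1⟩ := one_dim N p.1 q.1 hp.1
  obtain ⟨t2, b2, h2, e2⟩ := one_dim N p.2 q.2 hp.2
  refine ⟨(t1, t2), ⟨(b1, b2), mem_product.2 ⟨h1, h2⟩⟩, ?_⟩
  unfold pt
  simp only
  rw [e1, e2]

/-- number of members of `P` in good position for the shift `τ` -/
noncomputable def KK (N : ℕ) (P : Finset (ℤ × ℤ)) (τ : Fin 8 × Fin 8) : ℕ :=
  ((univ : Finset (BL N × (Fin 7 × Fin 7))).filter (fun x => pt τ x.1 x.2 ∈ P)).card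

theorem KK_le (N : ℕ) (P : Finset (ℤ × ℤ)) (τ : Fin 8 × Fin 8) : KK N P τ ≤ P.card := by
  unfold KK
  refine Finset.card_le_card_of_injOn (fun x => pt τ x.1 x.2) ?_ ?_
  · intro x hx
    exact (mem_filter.1 (Finset.mem_coe.1 hx)).2
  · rintro ⟨b, q⟩ _ ⟨b', q'⟩ _ h
    obtain ⟨h1, h2⟩ := pt_inj h
    rw [Prod.mk.injEq]
    exact ⟨Subtype.ext h1, h2⟩

theorem sum_KK (N : ℕ) (P : Finset (ℤ × ℤ)) (hP : ∀ p ∈ P, |p.1| ≤ N ∧ |p.2| ≤ N) :
    49 * P.card ≤ ∑ τ : Fin 8 × Fin 8, KK N P τ := by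
  have h1 : ∑ τ : Fin 8 × Fin 8, KK N P τ =
      ((univ : Finset ((Fin 8 × Fin 8) × (BL N × (Fin 7 × Fin 7)))).filter
        (fun x => pt x.1 x.2.1 x.2.2 ∈ P)).card := by
    unfold KK
    simp only [Finset.card_filter]
    rw [← Finset.univ_product_univ (α := Fin 8 × Fin 8) (β := BL N × (Fin 7 × Fin 7)),
      Finset.sum_product]
  rw [h1]
  have h2 : 49 * P.card = (P ×ˢ (univ : Finset (Fin 7 × Fin 7))).card := by
    rw [Finset.card_product]
    simp [mul_comm]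
  rw [h2]
  have h3 : ∀ x : {p : ℤ × ℤ // p ∈ P} × (Fin 7 × Fin 7), ∃ y : (Fin 8 × Fin 8) × BL N,
      pt y.1 y.2 x.2 = x.1 := by
    rintro ⟨p, q⟩
    obtain ⟨τ, b, h⟩ := pt_surj N p.1 (hP p.1 p.2) q
    exact ⟨(τ, b), h⟩
  choose φ hφ using h3
  have h4 : (P ×ˢ (univ : Finset (Fin 7 × Fin 7))).card =
      (univ : Finset ({p : ℤ × ℤ // p ∈ P} × (Fin 7 × Fin 7))).card := by
    rw [Finset.card_product, Finset.card_univ, Finset.card_univ,
      Fintype.card_prod {p : ℤ × ℤ // p ∈ P} (Fin 7 × Fin 7), Fintype.card_coe]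
  rw [h4]
  refine Finset.card_le_card_of_injOn (fun x => ((φ x).1, ((φ x).2, x.2))) ?_ ?_
  · intro x _
    rw [Finset.mem_coe, mem_filter]
    refine ⟨mem_univ _, ?_⟩
    simp only
    rw [hφ x]
    exact x.1.2
  · rintro ⟨p, q⟩ _ ⟨p', q'⟩ _ h
    simp only [Prod.mk.injEq] at h
    obtain ⟨h5, h6, h7⟩ := h
    subst h7
    have h8 := hφ (p, q)
    have h9 := hφ (p', q)
    rw [h5, h6, h9] at h8
    rw [Prod.mk.injEq]
    exact ⟨Subtype.ext h8.symm, rfl⟩

/-- pigeonhole for the shifts -/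
theorem exists_shift (N : ℕ) (P : Fin 3 → Finset (ℤ × ℤ))
    (hP : ∀ s, ∀ p ∈ P s, |p.1| ≤ N ∧ |p.2| ≤ N) (hc : ∀ s, 1000 ≤ (P s).card) :
    ∃ τ : Fin 8 × Fin 8, ∀ s, (P s).card ≤ 4 * KK N (P s) τ := by
  by_contra hcon
  push Not at hcon
  have hpos : ∀ s, (0 : ℝ) < ((P s).card : ℝ) := by
    intro s
    have : 0 < (P s).card := by have := hc s; omega
    exact_mod_cast this
  have hr : ∀ τ s, (KK N (P s) τ : ℝ) / ((P s).card : ℝ) ≤ 1 := by
    intro τ s
    rw [div_le_one (hpos s)]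
    exact_mod_cast KK_le N (P s) τ
  have hlow : ∀ τ, ∑ s : Fin 3, (KK N (P s) τ : ℝ) / ((P s).card : ℝ) ≤ 9 / 4 := by
    intro τ
    obtain ⟨s, hs⟩ := hcon τ
    have h1 : (KK N (P s) τ : ℝ) / ((P s).card : ℝ) ≤ 1 / 4 := by
      rw [div_le_iff₀ (hpos s)]
      have : (4 : ℝ) * (KK N (P s) τ : ℝ) ≤ ((P s).card : ℝ) := by exact_mod_cast hs.le
      linarith
    have r0 := hr τ 0
    have r1 := hr τ 1
    have r2 := hr τ 2
    rw [Fin.sum_univ_three]
    fin_cases s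
    · simp only [Fin.zero_eta] at h1
      linarith
    · simp only [Fin.mk_one] at h1
      linarith
    · simp only [Fin.reduceFinMk] at h1
      linarith
  have hup : ∀ s, (49 : ℝ) ≤ ∑ τ : Fin 8 × Fin 8, (KK N (P s) τ : ℝ) / ((P s).card : ℝ) := by
    intro s
    rw [← Finset.sum_div, le_div_iff₀ (hpos s)]
    exact_mod_cast sum_KK N (P s) (hP s)
  have e1 : ∑ s : Fin 3, ∑ τ : Fin 8 × Fin 8, (KK N (P s) τ : ℝ) / ((P s).card : ℝ) =
      ∑ τ : Fin 8 × Fin 8, ∑ s : Fin 3, (KK N (P s) τ : ℝ) / ((P s).card : ℝ) :=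
    Finset.sum_comm
  have e2 : ∑ s : Fin 3, (49 : ℝ) ≤
      ∑ s : Fin 3, ∑ τ : Fin 8 × Fin 8, (KK N (P s) τ : ℝ) / ((P s).card : ℝ) :=
    Finset.sum_le_sum fun s _ => hup s
  have e3 : ∑ τ : Fin 8 × Fin 8, ∑ s : Fin 3, (KK N (P s) τ : ℝ) / ((P s).card : ℝ) ≤
      ∑ τ : Fin 8 × Fin 8, (9 / 4 : ℝ) := Finset.sum_le_sum fun τ _ => hlow τ
  rw [Finset.sum_const, Finset.card_univ] at e2 e3
  simp only [Fintype.card_fin, Fintype.card_prod, nsmul_eq_mul] at e2 e3
  rw [e1] at e2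
  norm_num at e2 e3
  linarith

/-! ### The moment bound -/

/-- number of blocks whose selected point is in `P` -/
noncomputable def XX (N : ℕ) (P : Finset (ℤ × ℤ)) (τ : Fin 8 × Fin 8) (f : BL N → Fin 7 × Fin 7) : ℕ :=
  ((univ : Finset (BL N)).filter (fun b : BL N => pt τ b (f b) ∈ P)).card

theorem mgf (N : ℕ) (P : Finset (ℤ × ℤ)) (τ : Fin 8 × Fin 8) :
    ∑ f : BL N → Fin 7 × Fin 7, (1 / 2 : ℝ) ^ XX N P τ f ≤
      (49 : ℝ) ^ Fintype.card (BL N) * Real.exp (-((KK N P τ : ℝ) / 98)) := by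
  have h1 : ∀ f : BL N → Fin 7 × Fin 7, (1 / 2 : ℝ) ^ XX N P τ f =
      ∏ b : BL N, (if pt τ b (f b) ∈ P then (1 / 2 : ℝ) else 1) := by
    intro f
    rw [Finset.prod_ite, Finset.prod_const, Finset.prod_const_one, mul_one]
    rfl
  have h2 : ∑ f : BL N → Fin 7 × Fin 7, (1 / 2 : ℝ) ^ XX N P τ f =
      ∏ b : BL N, ∑ q : Fin 7 × Fin 7, (if pt τ b q ∈ P then (1 / 2 : ℝ) else 1) := by
    rw [Finset.prod_univ_sum (fun _ => (univ : Finset (Fin 7 × Fin 7)))
      (fun (b : BL N) q => if pt τ b q ∈ P then (1 / 2 : ℝ) else 1), Fintype.piFinset_univ]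
    exact Finset.sum_congr rfl fun f _ => h1 f
  have h3 : ∀ b : BL N, ∑ q : Fin 7 × Fin 7, (if pt τ b q ∈ P then (1 / 2 : ℝ) else 1) =
      49 - (((univ : Finset (Fin 7 × Fin 7)).filter (fun q => pt τ b q ∈ P)).card : ℝ) / 2 := by
    intro b
    rw [Finset.sum_ite, Finset.sum_const, Finset.sum_const, nsmul_eq_mul, nsmul_eq_mul]
    have h4 := Finset.card_filter_add_card_filter_not
      (s := (univ : Finset (Fin 7 × Fin 7))) (fun q => pt τ b q ∈ P)
    rw [Finset.card_univ] at h4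
    have h5 : Fintype.card (Fin 7 × Fin 7) = 49 := by simp
    rw [h5] at h4
    have h6 : (((univ : Finset (Fin 7 × Fin 7)).filter (fun q => pt τ b q ∈ P)).card : ℝ) +
      (((univ : Finset (Fin 7 × Fin 7)).filter (fun q => ¬ pt τ b q ∈ P)).card : ℝ) = 49 := by
      exact_mod_cast h4
    linarith
  have h4 : (KK N P τ : ℝ) = ∑ b : BL N,
      (((univ : Finset (Fin 7 × Fin 7)).filter (fun q => pt τ b q ∈ P)).card : ℝ) := by
    unfold KK
    simp only [Finset.card_filter]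
    rw [← Finset.univ_product_univ, Finset.sum_product]
    push_cast
    rfl
  rw [h2]
  calc ∏ b : BL N, ∑ q : Fin 7 × Fin 7, (if pt τ b q ∈ P then (1 / 2 : ℝ) else 1)
      ≤ ∏ b : BL N, (49 * Real.exp (-((((univ : Finset (Fin 7 × Fin 7)).filter
          (fun q => pt τ b q ∈ P)).card : ℝ) / 98))) := by
        refine Finset.prod_le_prod (fun b _ => ?_) (fun b _ => ?_)
        · exact Finset.sum_nonneg fun q _ => by split_ifs <;> norm_num
        · rw [h3 b]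
          have h5 := Real.add_one_le_exp (-((((univ : Finset (Fin 7 × Fin 7)).filter
            (fun q => pt τ b q ∈ P)).card : ℝ) / 98))
          linarith
    _ = (49 : ℝ) ^ Fintype.card (BL N) * Real.exp (-((KK N P τ : ℝ) / 98)) := by
        rw [Finset.prod_mul_distrib, Finset.prod_const, Finset.card_univ, ← Real.exp_sum,
          Finset.sum_neg_distrib, ← Finset.sum_div, ← h4]

theorem six_lt : (6 : ℝ) < Real.exp (1.85 : ℝ) := by
  have h1 := Real.exp_one_gt_d9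
  have h2 := Real.quadratic_le_exp_of_nonneg (by norm_num : (0 : ℝ) ≤ 0.85)
  have h3 : Real.exp (1.85 : ℝ) = Real.exp 1 * Real.exp 0.85 := by
    rw [← Real.exp_add]
    norm_num
  rw [h3]
  have h4 : (2.21125 : ℝ) ≤ Real.exp 0.85 := by
    refine le_trans ?_ h2
    norm_num
  nlinarith

/-- few choices are bad -/
theorem bad_le (N : ℕ) (P : Finset (ℤ × ℤ)) (τ : Fin 8 × Fin 8) (hc : 1000 ≤ P.card)
    (hK : P.card ≤ 4 * KK N P τ) :
    6 * ((univ : Finset (BL N → Fin 7 × Fin 7)).filter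
      (fun f => 1000 * XX N P τ f < P.card)).card ≤ 49 ^ Fintype.card (BL N) := by
  set Bd := (univ : Finset (BL N → Fin 7 × Fin 7)).filter (fun f => 1000 * XX N P τ f < P.card)
    with hBd
  have hn : (1000 : ℝ) ≤ (P.card : ℝ) := by exact_mod_cast hc
  have hK' : (P.card : ℝ) ≤ 4 * (KK N P τ : ℝ) := by exact_mod_cast hK
  have h1 : (Bd.card : ℝ) * Real.exp (-(Real.log 2 * ((P.card : ℝ) / 1000))) ≤
      ∑ f : BL N → Fin 7 × Fin 7, (1 / 2 : ℝ) ^ XX N P τ f := by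
    calc (Bd.card : ℝ) * Real.exp (-(Real.log 2 * ((P.card : ℝ) / 1000)))
        = ∑ f ∈ Bd, Real.exp (-(Real.log 2 * ((P.card : ℝ) / 1000))) := by
          rw [Finset.sum_const, nsmul_eq_mul]
      _ ≤ ∑ f ∈ Bd, (1 / 2 : ℝ) ^ XX N P τ f := by
          refine Finset.sum_le_sum fun f hf => ?_
          have h2 := (mem_filter.1 hf).2
          have h3 : (XX N P τ f : ℝ) ≤ (P.card : ℝ) / 1000 := by
            rw [le_div_iff₀ (by norm_num)]
            have : ((1000 * XX N P τ f : ℕ) : ℝ) ≤ (P.card : ℝ) := by exact_mod_cast h2.le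
            push_cast at this
            linarith
          have h4 : (1 / 2 : ℝ) ^ XX N P τ f = Real.exp (-(Real.log 2 * (XX N P τ f : ℝ))) := by
            rw [← Real.rpow_natCast, Real.rpow_def_of_pos (by norm_num)]
            congr 1
            rw [one_div, Real.log_inv]
            ring
          rw [h4]
          apply Real.exp_le_exp.2
          have h5 : 0 ≤ Real.log 2 := Real.log_nonneg (by norm_num)
          nlinarith
      _ ≤ ∑ f : BL N → Fin 7 × Fin 7, (1 / 2 : ℝ) ^ XX N P τ f :=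
          Finset.sum_le_sum_of_subset_of_nonneg (Finset.filter_subset _ _)
            (fun f _ _ => by positivity)
  have h2 := h1.trans (mgf N P τ)
  have h3 : Real.exp (-((KK N P τ : ℝ) / 98)) ≤
      Real.exp (-(Real.log 2 * ((P.card : ℝ) / 1000))) * Real.exp (-(1.85 : ℝ)) := by
    rw [← Real.exp_add]
    apply Real.exp_le_exp.2
    have h4 := Real.log_two_lt_d9
    have h5 : Real.log 2 * ((P.card : ℝ) / 1000) ≤ 0.6931471808 * ((P.card : ℝ) / 1000) :=
      mul_le_mul_of_nonneg_right h4.le (by positivity)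
    linarith
  have h49 : (0 : ℝ) ≤ (49 : ℝ) ^ Fintype.card (BL N) := by positivity
  have h4 : (Bd.card : ℝ) * Real.exp (-(Real.log 2 * ((P.card : ℝ) / 1000))) ≤
      ((49 : ℝ) ^ Fintype.card (BL N) * Real.exp (-(1.85 : ℝ))) *
        Real.exp (-(Real.log 2 * ((P.card : ℝ) / 1000))) := by
    refine h2.trans ?_
    calc (49 : ℝ) ^ Fintype.card (BL N) * Real.exp (-((KK N P τ : ℝ) / 98))
        ≤ (49 : ℝ) ^ Fintype.card (BL N) *
          (Real.exp (-(Real.log 2 * ((P.card : ℝ) / 1000))) * Real.exp (-(1.85 : ℝ))) :=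
          mul_le_mul_of_nonneg_left h3 h49
      _ = _ := by ring
  have h5 := le_of_mul_le_mul_right h4 (Real.exp_pos _)
  have h6 : 6 * Real.exp (-(1.85 : ℝ)) ≤ 1 := by
    rw [Real.exp_neg, ← div_eq_mul_inv, div_le_one (Real.exp_pos _)]
    exact six_lt.le
  have h7 : (6 : ℝ) * (Bd.card : ℝ) ≤ (49 : ℝ) ^ Fintype.card (BL N) := by
    calc (6 : ℝ) * (Bd.card : ℝ) ≤ 6 * ((49 : ℝ) ^ Fintype.card (BL N) * Real.exp (-(1.85 : ℝ))) :=
          mul_le_mul_of_nonneg_left h5 (by norm_num)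
      _ = (49 : ℝ) ^ Fintype.card (BL N) * (6 * Real.exp (-(1.85 : ℝ))) := by ring
      _ ≤ (49 : ℝ) ^ Fintype.card (BL N) * 1 := mul_le_mul_of_nonneg_left h6 h49
      _ = _ := mul_one _
  exact_mod_cast h7

/-! ### The families -/

/-- the family of the shift `τ` and the choice `f` -/
noncomputable def Lam (N : ℕ) (i : (Fin 8 × Fin 8) × (BL N → Fin 7 × Fin 7)) : Finset (ℤ × ℤ) :=
  (univ : Finset (BL N)).image (fun b : BL N => pt i.1 b (i.2 b))

theorem cf_Lam (N : ℕ) (i : (Fin 8 × Fin 8) × (BL N → Fin 7 × Fin 7)) : CF (Lam N i) := by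
  intro p hp q hq hpq v hv
  unfold Lam at hp hq
  rw [mem_image] at hp hq
  obtain ⟨b, _, rfl⟩ := hp
  obtain ⟨b', _, rfl⟩ := hq
  obtain ⟨⟨h1, h2⟩, ⟨h3, h4⟩⟩ := hv
  unfold pt at h1 h2 h3 h4
  simp only at h1 h2 h3 h4
  have l1 := (i.2 b).1.isLt
  have l2 := (i.2 b).2.isLt
  have l3 := (i.2 b').1.isLt
  have l4 := (i.2 b').2.isLt
  have e1 : (b : ℤ × ℤ).1 = (b' : ℤ × ℤ).1 := by omega
  have e2 : (b : ℤ × ℤ).2 = (b' : ℤ × ℤ).2 := by omega
  have : b = b' := Subtype.ext (Prod.ext e1 e2)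
  exact hpq (by rw [this])

theorem inter_Lam (N : ℕ) (τ : Fin 8 × Fin 8) (f : BL N → Fin 7 × Fin 7)
    (P : Finset (ℤ × ℤ)) : (Lam N (τ, f) ∩ P).card = XX N P τ f := by
  have h1 : Lam N (τ, f) ∩ P =
      ((univ : Finset (BL N)).filter (fun b : BL N => pt τ b (f b) ∈ P)).image
        (fun b : BL N => pt τ b (f b)) := by
    ext x
    unfold Lam
    rw [mem_inter, mem_image, mem_image]
    constructor
    · rintro ⟨⟨b, _, rfl⟩, hx⟩
      exact ⟨b, mem_filter.2 ⟨mem_univ _, hx⟩, rfl⟩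
    · rintro ⟨b, hb, rfl⟩
      exact ⟨⟨b, mem_univ _, rfl⟩, (mem_filter.1 hb).2⟩
  rw [h1, Finset.card_image_of_injective]
  · rfl
  · intro b b' h
    exact Subtype.ext (pt_inj h).1

/-- **SEL** -/
theorem sel : S_SEL := by
  intro N
  refine ⟨(Fin 8 × Fin 8) × (BL N → Fin 7 × Fin 7), inferInstance,
    ⟨((0, 0), fun _ => (0, 0))⟩, Lam N, cf_Lam N, fun P hP hc => ?_⟩
  obtain ⟨τ, hτ⟩ := exists_shift N P hP hc
  set T : ℕ := 49 ^ Fintype.card (BL N) with hT
  have hcard : Fintype.card ((Fin 8 × Fin 8) × (BL N → Fin 7 × Fin 7)) = 64 * T := by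
    rw [Fintype.card_prod, Fintype.card_prod, Fintype.card_fun, Fintype.card_prod,
      Fintype.card_fin, Fintype.card_fin]
  -- the good choices
  set Gd := (univ : Finset (BL N → Fin 7 × Fin 7)).filter
    (fun f => ∀ s, (P s).card ≤ 1000 * XX N (P s) τ f) with hGd
  have hbad := fun s => bad_le N (P s) τ (hc s) (hτ s)
  have hall : T ≤ Gd.card + ∑ s : Fin 3, ((univ : Finset (BL N → Fin 7 × Fin 7)).filter
      (fun f => 1000 * XX N (P s) τ f < (P s).card)).card := by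
    have h1 : (univ : Finset (BL N → Fin 7 × Fin 7)) ⊆ Gd ∪
        (univ : Finset (Fin 3)).biUnion (fun s => (univ : Finset (BL N → Fin 7 × Fin 7)).filter
          (fun f => 1000 * XX N (P s) τ f < (P s).card)) := by
      intro f _
      rw [mem_union, mem_biUnion]
      by_cases h : ∀ s, (P s).card ≤ 1000 * XX N (P s) τ f
      · left
        exact mem_filter.2 ⟨mem_univ _, h⟩
      · right
        push Not at h
        obtain ⟨s, hs⟩ := h
        exact ⟨s, mem_univ _, mem_filter.2 ⟨mem_univ _, hs⟩⟩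
    have h2 := card_le_card h1
    have h3 := card_union_le Gd ((univ : Finset (Fin 3)).biUnion
      (fun s => (univ : Finset (BL N → Fin 7 × Fin 7)).filter
          (fun f => 1000 * XX N (P s) τ f < (P s).card)))
    have h4 := card_biUnion_le (s := (univ : Finset (Fin 3)))
      (t := fun s => (univ : Finset (BL N → Fin 7 × Fin 7)).filter
          (fun f => 1000 * XX N (P s) τ f < (P s).card))
    have h5 : (univ : Finset (BL N → Fin 7 × Fin 7)).card = T := by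
      rw [Finset.card_univ, Fintype.card_fun, Fintype.card_prod, Fintype.card_fin]
    omega
  have hgood : T ≤ 2 * Gd.card := by
    rw [Fin.sum_univ_three] at hall
    have b0 := hbad 0
    have b1 := hbad 1
    have b2 := hbad 2
    rw [← hT] at b0 b1 b2
    omega
  have hmap : Gd.card ≤ ((univ : Finset ((Fin 8 × Fin 8) × (BL N → Fin 7 × Fin 7))).filter
      (fun i => ∀ s, (P s).card ≤ 1000 * (Lam N i ∩ P s).card)).card := by
    refine Finset.card_le_card_of_injOn (fun f => (τ, f)) ?_ ?_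
    · intro f hf
      rw [Finset.mem_coe, mem_filter]
      refine ⟨mem_univ _, fun s => ?_⟩
      rw [inter_Lam]
      exact (mem_filter.1 (Finset.mem_coe.1 hf)).2 s
    · intro f _ f' _ h
      exact (Prod.mk.inj h).2
  rw [hcard]
  calc 64 * T ≤ 128 * Gd.card := by omega
    _ ≤ _ := by
      refine Nat.mul_le_mul_left 128 (hmap.trans (le_of_eq ?_))
      congr

end Pool.Agent.N322.EX
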